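import Pool.Agent.H76.LieSpec

/-! Classification of all maps on complex matrices preserving the spectrum of commutators. -/

namespace Pool.Agent.Results.MP_fda97a_al.Classification

open Matrix Polynomial Pool.Agent.H76.LiePoly Pool.Agent.H76.LieGen Pool.Agent.H76.LieAlg
  Pool.Agent.H76.LieSpec

/-- `T` is quadratic: `(T - r I)^2 = s I` for some complex numbers `r`, `s`. -/
def Quad {n : ℕ} (T : Matrix (Fin n) (Fin n) ℂ) : Prop :=
  ∃ r s : ℂ, (T - r • (1 : Matrix (Fin n) (Fin n) ℂ)) ^ 2 = s • (1 : Matrix (Fin n) (Fin n) ℂ)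

variable {n : ℕ}

lemma mem_spec_iff (Z : Matrix (Fin n) (Fin n) ℂ) (c : ℂ) :
    c ∈ spectrum ℂ Z ↔ (c • (1 : Matrix (Fin n) (Fin n) ℂ) - Z).det = 0 := by
  rw [Matrix.mem_spectrum_iff_isRoot_charpoly, IsRoot.def, Matrix.eval_charpoly,
    Matrix.smul_one_eq_diagonal]
  rfl

lemma det_comm (c : ℂ) (A B : Matrix (Fin n) (Fin n) ℂ) :
    (c • (1 : Matrix (Fin n) (Fin n) ℂ) - A * B).det = (c • (1 : Matrix _ _ ℂ) - B * A).det := by
  have := congrArg (eval c) (Matrix.charpoly_mul_comm A B)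
  rw [Matrix.eval_charpoly, Matrix.eval_charpoly] at this
  rw [Matrix.smul_one_eq_diagonal]
  exact this

lemma sym_of_quad {T : Matrix (Fin n) (Fin n) ℂ} (hT : Quad T) (S : Matrix (Fin n) (Fin n) ℂ)
    {c : ℂ} (hc : c ∈ spectrum ℂ (br T S)) : -c ∈ spectrum ℂ (br T S) := by
  obtain ⟨r, s, h⟩ := hT
  set N := T - r • (1 : Matrix (Fin n) (Fin n) ℂ) with hN
  have hZ : br T S = br N S := by
    rw [← br_add_smul_one_left N S r, hN, sub_add_cancel]
  rw [hZ] at hc ⊢
  rw [pow_two] at h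
  by_cases hs : s = 0
  · by_cases hc0 : c = 0
    · simpa [hc0] using hc
    rw [hs, zero_smul] at h
    have e1 : ∀ S : Matrix (Fin n) (Fin n) ℂ, (c • 1 - (-S) * N) * (c • 1 - N * S)
        = c • (c • 1 - br N S) := by
      intro S
      have : S * N * (N * S) = 0 := by
        rw [Matrix.mul_assoc, ← Matrix.mul_assoc N, h]; simp
      simp only [br, sub_mul, mul_sub, neg_mul, smul_mul_assoc, mul_smul_comm, Matrix.one_mul,
        Matrix.mul_one, this]
      module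
    have e2 := congrArg det (e1 S)
    have e3 := congrArg det (e1 (-S))
    rw [det_mul, det_smul] at e2 e3
    rw [neg_neg, det_comm c S N, ← det_comm c (-S) N, mul_comm, e2] at e3
    have e4 := mul_left_cancel₀ (pow_ne_zero _ hc0) e3
    rw [mem_spec_iff] at hc
    rw [← mem_spec_neg, mem_spec_iff, show -br N S = br N (-S) by simp [br]; abel, ← e4, hc]
  · obtain ⟨v, hv0, hv⟩ := exists_eigvec hc
    refine mem_spectrum_of_eigvec (v := N *ᵥ v) (fun h0 => ?_) ?_
    · have := congrArg (N *ᵥ ·) h0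
      simp only [mulVec_mulVec, h, mulVec_zero, smul_mulVec, one_mulVec] at this
      exact hv0 ((smul_eq_zero.1 this).resolve_left hs)
    · have : br N S * N = -(N * br N S) := by
        simp only [br, sub_mul, mul_sub, Matrix.mul_assoc S, ← Matrix.mul_assoc N, h]
        simp
      rw [mulVec_mulVec, this, neg_mulVec, ← mulVec_mulVec, hv, mulVec_smul, neg_smul]

lemma exists_cyc {T : Matrix (Fin n) (Fin n) ℂ} (hT : ¬ Quad T) :
    ∃ x : Fin n → ℂ, T *ᵥ (T *ᵥ x) ∉ Submodule.span ℂ {x, T *ᵥ x} := by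
  let U : ℂ → ℂ → Matrix (Fin n) (Fin n) ℂ := fun a b => (T - a • 1) * (T - b • 1)
  have hU : ∀ a b, U a b ≠ 0 := by
    intro a b h
    refine hT ⟨(a + b) / 2, ((a - b) / 2) ^ 2, ?_⟩
    rw [← sub_eq_zero, ← h]
    simp only [U, pow_two, sub_mul, mul_sub, smul_mul_assoc, mul_smul_comm, Matrix.one_mul,
      Matrix.mul_one]
    module
  have hG : ∀ a b, Gen (fun x : Fin n → ℂ => U a b *ᵥ x ≠ 0) := by
    intro a b
    obtain ⟨x, hx⟩ : ∃ x, U a b *ᵥ x ≠ 0 := by
      by_contra hc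
      push Not at hc
      exact hU a b (eq_of_mulVec fun v => by rw [hc, zero_mulVec])
    obtain ⟨i, hi⟩ := Function.ne_iff.1 hx
    exact (gen_ne (PF_mulVec (PM_const (U a b)) (PV_lin LinearMap.id) i) ⟨x, hi⟩).mono
      fun v hv h => hv (congrFun h i)
  have hfin : (spectrum ℂ T).Finite := Matrix.finite_spectrum T
  have : Finite (spectrum ℂ T) := hfin
  obtain ⟨x, hx, hx0⟩ := ((gen_all (ι := spectrum ℂ T × spectrum ℂ T)
    fun p => hG p.1 p.2).and (hG 0 0)).exists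
  have hx1 : x ≠ 0 := by rintro rfl; simp at hx0
  refine ⟨x, fun h => ?_⟩
  obtain ⟨α, β, h⟩ := Submodule.mem_span_pair.1 h
  obtain ⟨w, hw⟩ := IsAlgClosed.exists_eq_mul_self (β ^ 2 + 4 * α)
  have key : ∀ a b : ℂ, a + b = β → a * b = -α → U a b *ᵥ x = 0 := by
    intro a b h1 h2
    simp only [U, ← mulVec_mulVec, sub_mulVec, mulVec_sub, smul_mulVec, one_mulVec, mulVec_smul,
      ← h]
    rw [← h1, show α = -(a * b) by rw [h2, neg_neg]]
    module
  have key2 : ∀ a b : ℂ, U a b *ᵥ x = 0 → a ∈ spectrum ℂ T := by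
    intro a b h0
    by_contra ha
    have h1 : (T - b • (1 : Matrix (Fin n) (Fin n) ℂ)) *ᵥ x = 0 := by
      by_contra h2
      refine ha (mem_spectrum_of_eigvec h2 ?_)
      rw [← sub_eq_zero, ← h0]
      simp only [U, ← mulVec_mulVec, sub_mulVec (A := T) (B := a • 1), smul_mulVec, one_mulVec]
    have hb : b ∈ spectrum ℂ T := mem_spectrum_of_eigvec hx1 (by
      rw [← sub_eq_zero, ← h1, sub_mulVec, smul_mulVec, one_mulVec])
    exact hx (⟨b, hb⟩, ⟨b, hb⟩) (by simp only [U, ← mulVec_mulVec, h1, mulVec_zero])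
  have k1 := key ((β + w) / 2) ((β - w) / 2) (by ring) (by linear_combination hw / 4)
  have k2 := key ((β - w) / 2) ((β + w) / 2) (by ring) (by linear_combination hw / 4)
  exact hx (⟨_, key2 _ _ k1⟩, ⟨_, key2 _ _ k2⟩) k1

lemma exists_asym {T : Matrix (Fin n) (Fin n) ℂ} (hT : ¬ Quad T) :
    ∃ S x, x ≠ 0 ∧ br T S *ᵥ x = x ∧ -1 ∉ spectrum ℂ (br T S) := by
  obtain ⟨x, hx⟩ := exists_cyc hT
  have hx1 : T *ᵥ x ∉ Submodule.span ℂ {x} := by
    intro h
    obtain ⟨k, hk⟩ := Submodule.mem_span_singleton.1 h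
    exact hx (Submodule.mem_span_pair.2 ⟨0, k, by rw [zero_smul, zero_add, ← mulVec_smul, hk]⟩)
  have hx0 : x ≠ 0 := by rintro rfl; simp at hx1
  obtain ⟨f, hf1, hf0⟩ := exists_dot _ hx1
  obtain ⟨g, hg2, hg⟩ := exists_dot _ hx
  replace hf0 := hf0 x (Submodule.mem_span_singleton_self x)
  have hg0 := hg x (Submodule.subset_span (by simp))
  have hg1 := hg (T *ᵥ x) (Submodule.subset_span (by simp))
  have hZ : ∀ v, br T (vecMulVec (T *ᵥ x) g - vecMulVec x f) *ᵥ v = (f ⬝ᵥ T *ᵥ v) • x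
      - (f ⬝ᵥ v + g ⬝ᵥ T *ᵥ v) • (T *ᵥ x) + (g ⬝ᵥ v) • (T *ᵥ (T *ᵥ x)) := by
    intro v
    simp only [br, sub_mulVec, ← mulVec_mulVec, vmv_mulVec, mulVec_sub, mulVec_smul]
    module
  refine ⟨vecMulVec (T *ᵥ x) g - vecMulVec x f, x, hx0, by simp [hZ, hf0, hf1, hg0, hg1], ?_⟩
  intro h
  obtain ⟨v, hv0, hv⟩ := exists_eigvec h
  rw [hZ] at hv
  have a1 : g ⬝ᵥ v = 0 := by
    have := congrArg (g ⬝ᵥ ·) hv
    simp only [dotProduct_add, dotProduct_sub, dotProduct_smul, hg0, hg1, hg2, smul_eq_mul] at this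
    linear_combination this / 2
  rw [a1, zero_smul, add_zero] at hv
  have a2 := congrArg (f ⬝ᵥ ·) hv
  have a3 := congrArg (fun y => g ⬝ᵥ T *ᵥ y) hv
  have a4 := congrArg (fun y => f ⬝ᵥ T *ᵥ y) hv
  simp only [dotProduct_sub, dotProduct_smul, mulVec_sub, mulVec_smul, hf0, hf1, hg1, hg2,
    smul_eq_mul] at a2 a3 a4
  have b1 : f ⬝ᵥ v + g ⬝ᵥ T *ᵥ v = 0 := by linear_combination -(a2 + a3)
  rw [b1] at a4 hv
  have b2 : f ⬝ᵥ T *ᵥ v = 0 := by linear_combination a4 / 2
  rw [b2] at hv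
  simp at hv
  exact hv0 hv

lemma gen_asym {T : Matrix (Fin n) (Fin n) ℂ} (hT : ¬ Quad T) :
    Gen (fun S => ¬ ∀ c ∈ spectrum ℂ (br T S), -c ∈ spectrum ℂ (br T S)) := by
  obtain ⟨S0, x, hx0, hx, h1⟩ := exists_asym hT
  have hid : PM (fun S : Matrix (Fin n) (Fin n) ℂ => S) := PM_lin LinearMap.id
  have hZ := PM_br (PM_const T) hid
  have hZ' : PM (fun S : Matrix (Fin n) (Fin n) ℂ => - br T S) := by
    simpa using (PM_const 0).sub hZ
  have hne : (aeval (-br T S0) (br T S0).charpoly) ^ Fintype.card (Fin n) *ᵥ x ≠ 0 := by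
    rw [← map_pow, aeval_mulVec_eig (c := -1) (by rw [neg_mulVec, hx]; simp), eval_pow]
    refine smul_ne_zero (pow_ne_zero _ ?_) hx0
    rwa [Matrix.mem_spectrum_iff_isRoot_charpoly] at h1
  obtain ⟨i, hi⟩ := Function.ne_iff.1 hne
  refine (gen_ne (PF_mulVec ((hZ.aeval_charpoly hZ').pow _) (fun i => PF_const (x i)) i)
    ⟨S0, hi⟩).mono fun S hS h => hS ?_
  refine congrFun (LS_pow (Z := -br T S) (x := x) (q := (br T S).charpoly) fun c hc => ?_) i
  have := h _ ((mem_spec_neg _ _).1 hc.mem_spectrum)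
  rwa [neg_neg, Matrix.mem_spectrum_iff_isRoot_charpoly] at this

lemma spec_sign {e : ℂ} (he : e * e = 1) (Z : Matrix (Fin n) (Fin n) ℂ) {c : ℂ}
    (hc : c ∈ spectrum ℂ (e • Z)) : c ∈ spectrum ℂ Z ∨ -c ∈ spectrum ℂ Z := by
  rcases mul_self_eq_one_iff.1 he with rfl | rfl
  · left; simpa using hc
  · right; rwa [neg_smul, one_smul, mem_spec_neg] at hc

lemma finish [Nontrivial (Fin n)] (ψ : Matrix (Fin n) (Fin n) ℂ → Matrix (Fin n) (Fin n) ℂ)
    (h : ∀ T S, spectrum ℂ (br (ψ T) (ψ S)) = spectrum ℂ (br T S))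
    (hG : Gen (fun S => ∃ e c : ℂ, e * e = 1 ∧ ψ S = e • S + c • (1 : Matrix _ _ ℂ))) :
    ∃ η ξ : Matrix (Fin n) (Fin n) ℂ → ℂ, (∀ T, ξ T = 1 ∨ ξ T = -1) ∧
      (∀ T T', ¬ Quad T → ¬ Quad T' → ξ T = ξ T') ∧ ∀ T, ψ T = ξ T • T + η T • 1 := by
  have hx0 : (fun _ => 1 : Fin n → ℂ) ≠ 0 := fun h0 => by
    obtain ⟨i⟩ : Nonempty (Fin n) := inferInstance
    simpa using congrFun h0 i
  have h1 : ∀ T, ∃ e c : ℂ, e * e = 1 ∧ ψ T = e • T + c • (1 : Matrix _ _ ℂ) := by
    intro T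
    have a0 : ∀ S (e c : ℂ), ψ S = e • S + c • 1 →
        spectrum ℂ (e • br (ψ T) S) = spectrum ℂ (br T S) := by
      intro S e c hS
      rw [← h T S, hS, br_add_smul_one_right, ← one_smul ℂ (ψ T), br_smul_smul, one_mul, one_smul]
    refine pointwise2 (pointwise hx0 (hG.mono ?_)) (pointwise hx0 (hG.mono ?_))
    · rintro S ⟨e, c, he, hS⟩ d hd
      exact spec_sign he _ (by rw [a0 S e c hS]; exact hd.mem_spectrum)
    · rintro S ⟨e, c, he, hS⟩ d hd
      rw [← a0 S e c hS]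
      exact spec_sign he _ (by rw [smul_smul, he, one_smul]; exact hd.mem_spectrum)
  choose ξ η hξ hψ using h1
  refine ⟨η, ξ, fun T => mul_self_eq_one_iff.1 (hξ T), fun T T' hT hT' => ?_, hψ⟩
  obtain ⟨S, h2, h3⟩ := ((gen_asym hT).and (gen_asym hT')).exists
  have key : ∀ T, (¬ ∀ c ∈ spectrum ℂ (br T S), -c ∈ spectrum ℂ (br T S)) → ξ T = ξ S := by
    intro T hT
    have a1 := h T S
    rw [hψ T, hψ S, br_form] at a1
    by_contra hne
    have : ξ T * ξ S = -1 := by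
      rcases mul_self_eq_one_iff.1 (hξ T) with b1 | b1 <;>
        rcases mul_self_eq_one_iff.1 (hξ S) with b2 | b2 <;> simp_all
    rw [this, neg_smul, one_smul] at a1
    exact hT fun c hc => (mem_spec_neg _ _).1 (a1 ▸ hc)
  rw [key T h2, key T' h3]

lemma converse (θ : Matrix (Fin n) (Fin n) ℂ → Matrix (Fin n) (Fin n) ℂ)
    (hθ : ∀ T S, spectrum ℂ (br (θ T) (θ S)) = spectrum ℂ (br T S))
    (η ξ : Matrix (Fin n) (Fin n) ℂ → ℂ) (h1 : ∀ T, ξ T = 1 ∨ ξ T = -1)
    (h2 : ∀ T T', ¬ Quad T → ¬ Quad T' → ξ T = ξ T') (T S : Matrix (Fin n) (Fin n) ℂ) :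
    spectrum ℂ (br (ξ T • θ T + η T • 1) (ξ S • θ S + η S • 1)) = spectrum ℂ (br T S) := by
  rw [br_form]
  by_cases h : ξ T = ξ S
  · rw [← h, mul_self_eq_one_iff.2 (h1 T), one_smul, hθ]
  · have h3 : ξ T * ξ S = -1 := by
      rcases h1 T with b1 | b1 <;> rcases h1 S with b2 | b2 <;> simp_all
    have h4 : ∀ c ∈ spectrum ℂ (br T S), -c ∈ spectrum ℂ (br T S) := by
      by_cases hT : Quad T
      · exact fun c hc => sym_of_quad hT S hc
      · have hS : Quad S := by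
          by_contra hS
          exact h (h2 T S hT hS)
        intro c hc
        have e : br T S = - br S T := by simp [br]
        rw [e, mem_spec_neg] at hc ⊢
        exact sym_of_quad hS T hc
    ext c
    rw [h3, neg_smul, one_smul, mem_spec_neg, hθ]
    exact ⟨fun hc => by simpa using h4 _ hc, h4 c⟩

theorem result (n : ℕ) (φ : Matrix (Fin n) (Fin n) ℂ → Matrix (Fin n) (Fin n) ℂ) :
    (∀ T S, spectrum ℂ (φ T * φ S - φ S * φ T) = spectrum ℂ (T * S - S * T)) ↔
    ∃ (A : Matrix (Fin n) (Fin n) ℂ) (η ξ : Matrix (Fin n) (Fin n) ℂ → ℂ), IsUnit A ∧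
      (∀ T, ξ T = 1 ∨ ξ T = -1) ∧ (∀ T T', ¬ Quad T → ¬ Quad T' → ξ T = ξ T') ∧
      ((∀ T, φ T = ξ T • (A * T * A⁻¹) + η T • (1 : Matrix (Fin n) (Fin n) ℂ)) ∨
       (∀ T, φ T = (ξ T * Complex.I) • (A * Tᵀ * A⁻¹)
          + η T • (1 : Matrix (Fin n) (Fin n) ℂ))) := by
  change (∀ T S, spectrum ℂ (br (φ T) (φ S)) = spectrum ℂ (br T S)) ↔ _
  constructor
  · intro h
    rcases subsingleton_or_nontrivial (Fin n) with hn | hn
    · refine ⟨1, fun T => (φ T - T).trace, fun _ => 1, isUnit_one, fun _ => Or.inl rfl,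
        fun _ _ _ _ => rfl, Or.inl fun T => ?_⟩
      ext i j
      obtain rfl := Subsingleton.elim i j
      simp [trace, Fintype.sum_subsingleton _ i]
    obtain ⟨A, B, hAB, hBA, hG⟩ := generic_form φ
      (gen_traces φ (gen_of_forall fun p => (h p.1 p.2).ge))
    have hB : A⁻¹ = B := Matrix.inv_eq_right_inv hAB
    have hA : IsUnit A := ⟨⟨A, B, hAB, hBA⟩, rfl⟩
    have c1 : ∀ X : Matrix (Fin n) (Fin n) ℂ, B * (A * X * B) * A = X := by
      intro X
      calc B * (A * X * B) * A = (B * A) * X * (B * A) := by simp only [Matrix.mul_assoc]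
        _ = X := by rw [hBA]; simp
    have c2 : ∀ X : Matrix (Fin n) (Fin n) ℂ, A * (B * X * A) * B = X := by
      intro X
      calc A * (B * X * A) * B = (A * B) * X * (A * B) := by simp only [Matrix.mul_assoc]
        _ = X := by rw [hAB]; simp
    rcases hG with hG | hG
    · obtain ⟨η, ξ, h1, h2, h3⟩ := finish (fun T => B * φ T * A)
        (fun T S => by rw [br_conj hAB, spec_conj hAB, h]) (hG.mono (by
          rintro S ⟨e, c, he, hS⟩
          refine ⟨e, c, he, ?_⟩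
          simp only [hS, mul_add, add_mul, mul_smul_comm, smul_mul_assoc, c1, Matrix.mul_one,
            hBA]))
      refine ⟨A, η, ξ, hA, h1, h2, Or.inl fun T => ?_⟩
      rw [← c2 (φ T), h3, hB]
      simp only [mul_add, add_mul, mul_smul_comm, smul_mul_assoc, Matrix.mul_one, hAB]
    · have hI : Complex.I * Complex.I = -1 := Complex.I_mul_I
      obtain ⟨η, ξ, h1, h2, h3⟩ := finish (fun T => (-Complex.I) • (B * φ T * A)ᵀ)
        (fun T S => by
          rw [br_smul_smul, neg_mul_neg, hI, ← h T S, ← spec_conj hAB (br (φ T) (φ S)),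
            ← br_conj hAB, ← spec_transpose (br (B * φ T * A) _)]
          simp [br, transpose_mul (B * φ T * A), transpose_mul (B * φ S * A)]) (hG.mono (by
          rintro S ⟨e, c, he, hS⟩
          refine ⟨e, -Complex.I * c, he, ?_⟩
          simp only [hS, mul_add, add_mul, mul_smul_comm, smul_mul_assoc, c1, Matrix.mul_one,
            hBA, transpose_add, transpose_smul, transpose_transpose, transpose_one, smul_add,
            smul_smul]
          rw [show -Complex.I * (e * Complex.I) = e by linear_combination -e * hI]))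
      refine ⟨A, fun T => Complex.I * η T, ξ, hA, h1, h2, Or.inr fun T => ?_⟩
      have h4 := congrArg (fun X => Complex.I • Xᵀ) (h3 T)
      simp only [transpose_smul, transpose_transpose, smul_smul, mul_neg, hI, neg_neg, one_smul,
        transpose_add, transpose_one, smul_add] at h4
      rw [← c2 (φ T), h4, hB]
      simp only [mul_add, add_mul, mul_smul_comm, smul_mul_assoc, Matrix.mul_one, hAB,
        mul_comm Complex.I (ξ T)]
  · rintro ⟨A, η, ξ, hA, h1, h2, h3⟩ T S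
    have hBA : A⁻¹ * A = 1 := Matrix.nonsing_inv_mul A ((Matrix.isUnit_iff_isUnit_det A).1 hA)
    rcases h3 with h3 | h3
    · rw [h3, h3]
      exact converse (fun T => A * T * A⁻¹) (fun T S => by rw [br_conj hBA, spec_conj hBA])
        η ξ h1 h2 T S
    · rw [h3, h3, ← smul_smul, ← smul_smul]
      exact converse (fun T => Complex.I • (A * Tᵀ * A⁻¹))
        (fun T S => by rw [br_conjT hBA, spec_conj hBA, spec_transpose]) η ξ h1 h2 T S

end Pool.Agent.Results.MP_fda97a_al.Classification
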